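import Pool.Agent.Lib.EXT.SDefs
import Pool.Agent.Lib.EX.Stmt

/-! Project ex41: the target statement over a divisor with multiplicities. -/

open scoped Classical Manifold ContDiff Topology
open Filter

namespace Pool.Agent.Lib.EX

open Pool.Agent.Lib.SV Pool.Agent.Lib.HS Pool.Agent.Lib.GH Pool.Agent.Lib.KP

/-- The coefficients `δ i = s k i - l i / m` of the boundary. -/
structure CoefT {I : Type} (m : ℕ) (ex : Set I) (k ν : I → ℕ) (l : I → ℤ) (s : ℝ) : Prop where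
  top : ∀ i, 0 < k i → 0 < ν i ∧ s * k i - l i / m ≤ ν i + 1 ∧ (i ∉ ex → 1 < s * k i - l i / m)
  off : ∀ i, k i = 0 → -m < l i ∧ (i ∉ ex → l i ≤ 0)

/-- The extension theorem. -/
def St_THICK : Prop := ∀ (n : ℕ) (Y ι I : Type) [TopologicalSpace Y] [ChartedSpace (E n) Y]
  [IsManifold 𝓘(ℂ, E n) ω Y] [CompactSpace Y] [T2Space Y] [ConnectedSpace Y] [Fintype I]
  (G : Y → Mat n) (m : ℕ) (D : I → Set Y) (ex : Set I) (k ν : I → ℕ) (l : I → ℤ) (η : Y → ℂ)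
  (W : ι → Set Y) (σ : ι → Y → ℂ) (g : ι → ι → Y → ℂ) (s : ℝ) (u : ι → Y → ℂ),
  Kaehler G → 0 < m → LogRes n m D ex k l η W σ g → 0 < s → s ≤ 1 → CoefT m ex k ν l s →
  GenT n D ν W g → SecT n D ν W g u →
  ∃ v, SecOn n W g Set.univ v ∧ ∀ a, ∀ y ∈ W a ∩ ⋃ i ∈ {i | 0 < k i}, D i, v a y = u a y

theorem BdryT.coef {I : Type} [Fintype I] {m : ℕ} {ex : Set I} {k ν : I → ℕ} {l : I → ℤ} {M : ℝ}
    (hM : 1 < M) (h : BdryT m ex k ν l M) : ∃ s : ℝ, 0 < s ∧ s ≤ 1 ∧ CoefT m ex k ν l s := by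
  have h0 : 0 < M⁻¹ := by positivity
  have h1 : ∀ᶠ s : ℝ in 𝓝 M⁻¹, s < 1 := eventually_lt_nhds (inv_lt_one_of_one_lt₀ hM)
  have h2 : ∀ᶠ s : ℝ in 𝓝 M⁻¹, ∀ i, 0 < k i → s * k i - l i / m < ν i + 1 :=
    eventually_all.2 fun i => eventually_imp_distrib_left.2 fun hi => by
      have hc : Continuous fun s : ℝ => s * k i - l i / m := by fun_prop
      exact hc.continuousAt.eventually_lt continuousAt_const
        (by simpa only [div_eq_inv_mul (k i : ℝ)] using (h.top i hi).2.1)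
  obtain ⟨s, ⟨s1, s2⟩, s3⟩ :=
    (((h1.and h2).filter_mono nhdsWithin_le_nhds).and (self_mem_nhdsWithin (s := Set.Ioi M⁻¹))).exists
  refine ⟨s, h0.trans s3, s1.le, fun i hi => ⟨(h.top i hi).1, (s2 i hi).le, fun hx => ?_⟩, h.off⟩
  have h3 := (h.top i hi).2.2 hx
  have h4 : M⁻¹ * k i < s * k i := mul_lt_mul_of_pos_right s3 (Nat.cast_pos.2 hi)
  rw [div_eq_inv_mul] at h3
  linarith

theorem sa_thick (h : St_THICK) (n : ℕ) (Y ι I : Type) [TopologicalSpace Y] [ChartedSpace (E n) Y]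
    [IsManifold 𝓘(ℂ, E n) ω Y] [CompactSpace Y] [T2Space Y] [ConnectedSpace Y] [Fintype I]
    (G : Y → Mat n) (m : ℕ) (D : I → Set Y) (ex : Set I) (k ν : I → ℕ) (l : I → ℤ) (η : Y → ℂ)
    (W : ι → Set Y) (σ : ι → Y → ℂ) (g : ι → ι → Y → ℂ) (M : ℝ)
    (hG : Kaehler G) (hm : 0 < m) (hR : LogRes n m D ex k l η W σ g) (hM : 1 < M)
    (hB : BdryT m ex k ν l M) (hS : GenT n D ν W g) : Gen n W g Set.univ := by
  obtain ⟨s, s0, s1, s2⟩ := hB.coef hM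
  intro a y hy
  by_cases hyS : y ∈ ⋃ i ∈ {i | 0 < k i}, D i
  · obtain ⟨i, hi, hyi⟩ := Set.mem_iUnion₂.1 hyS
    obtain ⟨u, u1, u2⟩ := hS a y ⟨hy.1, Set.mem_biUnion (s := {i | 0 < ν i}) (s2.top i hi).1 hyi⟩
    obtain ⟨v, v1, v2⟩ := h n Y ι I G m D ex k ν l η W σ g s u hG hm hR s0 s1 s2 hS u1
    exact ⟨v, v1, by rwa [v2 a y ⟨hy.1, hyS⟩]⟩
  · refine ⟨σ, ⟨fun b x hx => ?_, fun b c x hx => (hR.tr b c x hx.1).2⟩, ?_⟩
    · obtain ⟨f, w, f1, f2⟩ := hR.div b x hx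
      have ht := (chartAt (E n) x).tendsto_symm (mem_chart_source _ x)
      have h1 := f2.self_of_nhds.1
      have h2 := fun i => (f1.1.self_of_nhds i).1
      simp only [HolAt, pow_zero, mul_one] at h1 h2 ⊢
      have h3 : DifferentiableAt ℂ (fun z => ∏ i, f i ((chartAt (E n) x).symm z) ^ k i)
          (chartAt (E n) x x) :=
        (HasFDerivAt.finsetProd fun i _ => ((h2 i).fun_pow (k i)).hasFDerivAt).differentiableAt
      refine (h1.fun_mul h3).congr_of_eventuallyEq ((ht.eventually f2).mono fun z hz => ?_)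
      simpa using hz.2.2
    · obtain ⟨f, w, f1, f2⟩ := hR.div a y hy.1
      rw [f2.self_of_nhds.2.2]
      refine mul_ne_zero f2.self_of_nhds.2.1 (Finset.prod_ne_zero_iff.2 fun i _ => ?_)
      rcases Nat.eq_zero_or_pos (k i) with hi | hi
      · simp [hi]
      · exact zpow_ne_zero _ fun h0 => hyS (Set.mem_biUnion (s := {i | 0 < k i}) hi
          ((f1.1.self_of_nhds i).2.2 h0))

end Pool.Agent.Lib.EX
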