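import Pool.Agent.Lib.EXT.Thick
import Pool.Agent.Lib.EXT.Stmt

/-! Project ex41: the extension theorem over a divisor with multiplicities. -/

namespace Pool.Agent.Lib.EX

theorem aTHICK : St_THICK := by
  intro n Y ι I _ _ _ _ _ _ _ G m D ex k ν l η W σ g s u hG hm hR s0 s1 hC hS hu
  refine EXT.thick hG hm hR s0 s1 hC.top hC.off (P := SecT n D ν W g) (fun _ h => h.hol)
    (fun _ h => h.glue) (fun a y hy => ?_) hu
  obtain ⟨i, hi, hyi⟩ := Set.mem_iUnion₂.1 hy.2
  exact hS a y ⟨hy.1, Set.mem_biUnion (s := {i | 0 < ν i}) (hC.top i hi).1 hyi⟩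

end Pool.Agent.Lib.EX
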