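import Pool.Agent.Lib.EX.MDefs

/-! Project ex41: the data for sections given on a thickening. -/

open scoped Classical Topology ContDiff ComplexOrder Matrix
open Set MeasureTheory Complex Metric Filter

set_option linter.unusedVariables false

noncomputable section

namespace Pool.Agent.Lib.EXT

open Pool.Agent.Lib.SV (E)
open Pool.Agent.Lib.HS32 Pool.Agent.Lib.EX

variable {n : ℕ} {M : Mf n} {ι : Type} [Fintype ι] [DecidableEq ι]

/-- A log resolution; the levels run from `s0` down to zero. -/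
structure Rs (D : Ad M ι) where
  a : ι → ℕ
  k : ι → ℤ
  m : ℕ
  w : D.A → E n → ℂ
  ex : Set ι
  B : D.A → Bl D a ex
  c0 : ℝ
  s0 : ℝ
  ν : ι → ℤ
  νs : sp a ≤ ν
  m0 : 0 < m
  whol : D.All fun b z => DifferentiableAt ℂ (w b) z
  wne : D.All fun b z => w b z ≠ 0
  wcmp : D.Ov fun b d x => w d (D.e d x) = w b (D.e b x) * D.um k b d x * (D.J b d x).det ^ m
  c1 : c0 < 1
  sub : D.All fun b z => (D.e b).symm z ∈ (B b).W ∧ ‖(B b).p ((D.e b).symm z)‖ ≤ c0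
  s00 : 0 ≤ s0
  s01 : s0 < 1
  top : ∀ i, a i ≠ 0 → (a i : ℝ) - ν i ≤ s0 * a i + k i / m + 1 ∧
    (i ∉ ex → s0 * a i + k i / m + 1 < a i)
  off : ∀ i, a i = 0 → -(m : ℤ) < k i ∧ (i ∉ ex → k i ≤ 0)

/-- Local lifts of a generating family of sections over the support. -/
structure Rs.Lift {D : Ad M ι} (R : Rs D) {κ : Type} (f : κ → D.A → M.X → ℂ) : Prop where
  mer : ∀ l b, D.On (R.B b).W fun d z => PolH (D.c d) (fun i => R.a i) (D.rd (f l b) d) z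
  dif : ∀ l b b', D.On ((R.B b).W ∩ (R.B b').W) fun d z =>
    PolH (D.c d) (fun i => R.a i - R.ν i) (D.rd (f l b - f l b') d) z
  gen : D.All fun b z => xm (D.c b) (fun i => R.a i) z = 0 → ∃ l s, HolN s z ∧ s z ≠ 0 ∧
    ∀ᶠ y in 𝓝 z, Off (D.c b) y → D.rd (f l b) b y = xm (D.c b) (-fun i => (R.a i : ℤ)) y * s y

/-- The theorem on the manifold layer. -/
def St_SING : Prop := ∀ (n : ℕ) (M : Mf n) [M.Cpt] (H : M.Fam (Mat n)) (ι : Type) [Fintype ι]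
  [DecidableEq ι] (D : Ad M ι) (R : Rs D) (κ : Type) [Fintype κ] (f : κ → D.A → M.X → ℂ),
  M.Kae H → R.Lift f → ∀ l, ∃ F : M.X → ℂ, D.All fun b z =>
    PolH (D.c b) (fun i => R.a i - sp R.a i) (D.rd (F - f l b) b) z

/-- Relative vanishing. -/
def St_RV : Prop := ∀ (n : ℕ) (M : Mf n) [M.Cpt] (ι : Type) [Fintype ι] [DecidableEq ι]
  (D : Ad M ι) (R : Rs D) (b : D.A) (t ρ : ℝ) (P Q : ι → ℤ) (g : D.A → E n → ℂ), ρ < 1 →
  (∀ i, P i = ⌈t * R.a i + R.k i / R.m⌉) → (∀ i, R.a i = 0 → R.k i = 0 → Q i ≤ 0) →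
  (D.All fun d z => PolH (D.c d) Q (g d) z) → D.Dif (fun d => PolH (D.c d) P) g →
  ∃ F : M.X → ℂ, D.On {x | x ∈ (R.B b).W ∧ ‖(R.B b).p x‖ < ρ} fun d z =>
    PolH (D.c d) P (D.rd F d - g d) z

end Pool.Agent.Lib.EXT
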