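import Pool.Agent.Lib.EX.SDefs

/-! Definitions used in the statement: sections over a divisor with multiplicities, and the
coefficients of the boundary. -/

open scoped Topology

namespace Pool.Agent.Lib.EX

open Pool.Agent.Lib.SV Pool.Agent.Lib.KP

variable (n : ℕ) {Y ι I : Type} [TopologicalSpace Y] [ChartedSpace (E n) Y] [Fintype I]

/-- `u` represents a section of the line bundle over the subscheme `∑ ν i D i`. -/
structure SecT (D : I → Set Y) (ν : I → ℕ) (W : ι → Set Y) (g : ι → ι → Y → ℂ) (u : ι → Y → ℂ) :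
    Prop where
  hol : ∀ a, ∀ y ∈ W a, HolAt n 0 (u a) y
  glue : ∀ a b, ∀ y ∈ W a ∩ W b, ∃ h s, Eqs n D y h ∧
    ∀ᶠ x in 𝓝 y, HolAt n 0 s x ∧ u a x - g a b x * u b x = s x * ∏ i, h i x ^ ν i

/-- The sections over the subscheme `∑ ν i D i` have no common zero on it. -/
def GenT (D : I → Set Y) (ν : I → ℕ) (W : ι → Set Y) (g : ι → ι → Y → ℂ) : Prop :=
  ∀ a, ∀ y ∈ W a ∩ ⋃ i ∈ {i | 0 < ν i}, D i, ∃ u, SecT n D ν W g u ∧ u a y ≠ 0

/-- The coefficients `δ i = k i / M - l i / m` of the boundary: over the support of `∑ k i D i`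
they are less than `ν i + 1` with `ν i` positive, elsewhere less than `1`; for `i ∉ ex` they are at
least `1` on that support and at least `0` elsewhere. -/
structure BdryT {I : Type} (m : ℕ) (ex : Set I) (k ν : I → ℕ) (l : I → ℤ) (M : ℝ) : Prop where
  top : ∀ i, 0 < k i → 0 < ν i ∧ k i / M - l i / m < ν i + 1 ∧ (i ∉ ex → 1 ≤ k i / M - l i / m)
  off : ∀ i, k i = 0 → -m < l i ∧ (i ∉ ex → l i ≤ 0)

end Pool.Agent.Lib.EX
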