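import Pool.Agent.Lib.EXT.B_LOOP
import Pool.Agent.Lib.EXS.All1
import Pool.Agent.Lib.EX.B_RSB
import Pool.Agent.Lib.EX.B_ADA
import Pool.Agent.Lib.EX.B_LFT2

/-! Project ex41: extension of sections given on a thickening. -/

open scoped Classical Topology ContDiff ComplexOrder Matrix Manifold
open Set Complex Metric Filter

set_option linter.unusedVariables false

noncomputable section

namespace Pool.Agent.Lib.EXT

open Pool.Agent.Lib.SV (E)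
open Pool.Agent.Lib.HS32 Pool.Agent.Lib.HS.BBR Pool.Agent.Lib.EX Pool.Agent.Lib.EX.K1
open Pool.Agent.Lib.KP (HolAt)

theorem sing : St_SING := bLOOP aMON aMOD aINC aTRF aLEVEL (fun _ _ _ _ _ _ D R b =>
  EXS.rv_gen D R.a R.k R.m R.w R.ex (R.B b) R.m0 R.whol R.wne R.wcmp fun i h => (R.off i h).2)
  EXS.bEXC

variable {n : ℕ} {Y ι I : Type} [TopologicalSpace Y] [ChartedSpace (E n) Y]
  [IsManifold 𝓘(ℂ, E n) ω Y] [CompactSpace Y] [T2Space Y] [ConnectedSpace Y] [Fintype I]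
  {m : ℕ} {S : I → Set Y} {ex : Set I} {k ν : I → ℕ} {l : I → ℤ} {η : Y → ℂ}
  {W : ι → Set Y} {σ : ι → Y → ℂ} {g : ι → ι → Y → ℂ} {s : ℝ}

theorem rsb (hm : 0 < m) (hR : LogRes n m S ex k l η W σ g) (s0 : 0 < s) (s1 : s ≤ 1)
    (top : ∀ i, 0 < k i →
      0 < ν i ∧ s * k i - l i / m ≤ ν i + 1 ∧ (i ∉ ex → 1 < s * k i - l i / m))
    (off : ∀ i, k i = 0 → -m < l i ∧ (i ∉ ex → l i ≤ 0)) :
    ∃ (D : Ad (mf n Y) I) (R : Rs D) (α : D.A → ι), D.Fit S ∧ R.a = k ∧ (R.ν = fun i => (ν i : ℤ)) ∧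
      (∀ b, (R.B b).W = W (α b)) ∧ ∀ a, ∃ v : D.A → E n → ℂ, D.On (W a) fun d z =>
        HolN (v d) z ∧ v d z ≠ 0 ∧ D.rd (σ a) d z = v d z * xm (D.c d) (fun i => k i) z := by
  have hU := bUNI
  have hA := bADA hU
  choose N r p τ a h1 h2 h3 using hR.blow
  choose α hα using hR.cov
  have : (mf n Y).Cpt := ⟨‹_›, ‹_›, ‹_›⟩
  have hO : ∀ x : Y, {y | y ∈ W (α x) ∧ ‖p (α x) y‖ < (1 + ‖p (α x) x‖) / 2} ∈ 𝓝 x := fun x => by
    have hx := mem_chart_source (E n) x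
    have c1 : ContinuousAt (p (α x)) x := continuousAt_pi.2 fun j => by
      refine (((hol_iff0 (ch_mf x) hx).1 ((h3 _ x (hα x)).2.1 j)).continuousAt.comp
        ((chartAt (E n) x).continuousAt hx)).congr ?_
      filter_upwards [(chartAt (E n) x).open_source.mem_nhds hx] with y hy
      simp only [Function.comp_apply, (chartAt (E n) x).left_inv hy]
    exact ((hR.opn _).1.eventually_mem (hα x)).and
      (c1.norm.eventually_lt continuousAt_const (by linarith [(h3 _ x (hα x)).1]))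
  obtain ⟨D, hF, hD⟩ := hA n (mf n Y) I S _ hO fun x : Y => by
    obtain ⟨h, -, hh, -⟩ := hR.form x
    exact ⟨_, ch_mf x, mem_chart_source _ x, _, eqs_chart (ch_mf x) (mem_chart_source _ x) hh⟩
  choose x hx using hD
  choose B B1 B2 B3 using fun b : D.A => bBLW hU hF (hR.opn (α (x b))).1 (hR.opn _).2 (h1 _) (h2 _)
    (h3 _) (hR.div _)
  obtain ⟨w, w1, w2, w3⟩ := ord_form hU hF hR.form
  obtain ⟨c0, c1, c2⟩ : ∃ c0 < (1 : ℝ), ∀ b, (1 + ‖p (α (x b)) (x b)‖) / 2 ≤ c0 := by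
    have : ∀ᶠ c in 𝓝[<] (1 : ℝ), ∀ b, (1 + ‖p (α (x b)) (x b)‖) / 2 ≤ c := eventually_all.2 fun b =>
      nhdsWithin_le_nhds (eventually_ge_nhds (by linarith [(h3 _ _ (hα (x b))).1]))
    obtain ⟨c, a1, a2⟩ := (this.and self_mem_nhdsWithin).exists
    exact ⟨c, a2, a1⟩
  refine ⟨D, ⟨k, l, m, w, ex, B, c0, 1 - s, fun i => ν i, fun i => ?_, hm, w1, w2, w3, c1,
    fun b z hz => ?_, by linarith, by linarith, fun i hi => ?_, off⟩, fun b => α (x b), hF, rfl,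
    rfl, B1, fun a => ord_unit hU hF (hR.div a)⟩
  · simp only [sp]
    split_ifs with h
    · omega
    · have := (top i (Nat.pos_of_ne_zero h)).1
      omega
  · have := hx b ((D.e b).map_target (tgt hz))
    exact ⟨(B1 b).symm ▸ this.1, (B3 b _).trans_le (this.2.le.trans (c2 b))⟩
  · obtain ⟨-, a1, a2⟩ := top i (Nat.pos_of_ne_zero hi)
    exact ⟨by push_cast; linarith, fun h => by linarith [a2 h]⟩

theorem thick {G : Y → Mat n} (hG : GH.Kaehler G) (hm : 0 < m)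
    (hR : LogRes n m S ex k l η W σ g) (s0 : 0 < s) (s1 : s ≤ 1)
    (top : ∀ i, 0 < k i →
      0 < ν i ∧ s * k i - l i / m ≤ ν i + 1 ∧ (i ∉ ex → 1 < s * k i - l i / m))
    (off : ∀ i, k i = 0 → -m < l i ∧ (i ∉ ex → l i ≤ 0))
    {P : (ι → Y → ℂ) → Prop} (hP : ∀ u, P u → ∀ a, ∀ y ∈ W a, HolAt n 0 (u a) y)
    (hP' : ∀ u, P u → ∀ a a', ∀ y ∈ W a ∩ W a', ∃ h w, Eqs n S y h ∧ ∀ᶠ x in 𝓝 y,
      HolAt n 0 w x ∧ u a x - g a a' x * u a' x = w x * ∏ i, h i x ^ ν i)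
    (hGen : ∀ a, ∀ y ∈ W a ∩ ⋃ i ∈ {i | 0 < k i}, S i, ∃ u, P u ∧ u a y ≠ 0) {u : ι → Y → ℂ}
    (hu : P u) : ∃ v, SecOn n W g Set.univ v ∧
      ∀ a, ∀ y ∈ W a ∩ ⋃ i ∈ {i | 0 < k i}, S i, v a y = u a y := by
  obtain ⟨D, R, α, hF, rfl, hν, hW, hv⟩ := rsb hm hR s0 s1 top off
  obtain ⟨κ, _, U, j, rfl, L1, L2, L3⟩ := LFT2.core hR hF α
    (K := fun b => {y ∈ (R.B b).W | ‖(R.B b).p y‖ ≤ R.c0})
    (fun b => ⟨(R.B b).cpt R.c0 R.c1, fun y hy => hW b ▸ hy.1⟩) R.sub hv hP hP' hGen hu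
  have hL : R.Lift fun j b x => U j (α b) x / σ (α b) x :=
    ⟨fun j b => hW b ▸ L1 j b, fun j b b' => by rw [hW, hW, hν]; exact L2 j b b', L3⟩
  obtain ⟨g1, g2, -⟩ := RB.R32.fam_ok hG.toHermitian
  have : (mf n Y).Cpt := ⟨‹_›, ‹_›, ‹_›⟩
  obtain ⟨F, hF'⟩ := sing n (mf n Y) (RB.R32.fam G) I D R κ _ ⟨⟨g1.toForm, g2 hG⟩, g1.pos⟩ hL j
  obtain ⟨v, h1, h2⟩ := bFINV D R.a W σ (U j) g α F (fun a => (hR.opn a).1)
    (fun b z hz => (hW b).subset (R.sub b z hz).1) hv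
    (fun a b d z hz h => LFT.holN ((hR.opn a).1.inter (hR.opn b).1)
      (fun y hy => (hR.tr a b y hy).1) hz h) (fun a b x hx => (hR.tr a b x hx).2)
    (fun a d z hz h => LFT.holN (hR.opn a).1 (hP _ hu a) hz h)
    (fun a b d z hz h h0 => sub_eq_zero.1 (LFT2.red (f := fun x => U j a x - g a b x * U j b x)
      (fun i hi => (top i hi).1) ((BRG.mem hF hz).2 h0) (hP' _ hu a b _ h))) hF'
  refine ⟨v, ⟨fun a y hy => ?_, fun a b y hy => h2 a b y hy.1⟩, fun a y hy => ?_⟩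
  · obtain ⟨d, z, hz, rfl⟩ := FINV.chart D y
    have h3 := (h1 a d z hz hy).1.self_of_nhds
    rw [← (D.e d).right_inv (FINV.tgt hz)] at h3
    exact (K1.hol_iff0 (D.mem d) ((D.e d).map_target (FINV.tgt hz))).2 h3
  · obtain ⟨d, z, hz, rfl⟩ := FINV.chart D y
    exact (h1 a d z hz hy.1).2 ((BRG.mem hF hz).1 hy.2)

end Pool.Agent.Lib.EXT
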